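import Pool.Agent.KLev.QFinal
import Pool.Agent.KLev.Halving3

/-!
# Halving partitions in space: at least `n ^ 2 * exp ((log n) ^ 0.51)`

`GeneralPosition`, `IsHalving`, `h` and `h3` are defined in `Pool/Agent/KLev/Halving3.lean`
(namespace `KLev.Halving3`).
-/

namespace Pool.Agent.Results.MP_f6af21_co.BeyondSqrt

open Filter KLev

/-- All large even `n` satisfy `h3 n ≥ n ^ 2 * exp ((log n) ^ 0.51)`. -/
theorem result : ∀ᶠ n : ℕ in atTop, Even n →
    (n : ℝ) ^ 2 * Real.exp (Real.log n ^ (51 / 100 : ℝ)) ≤ (Halving3.h3 n : ℝ) := by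
  obtain ⟨a, ha⟩ := (finalQ 64).exists_forall_of_atTop
  filter_upwards [eventually_ge_atTop (4 * a + 10)] with n hn heven
  obtain ⟨q, hq⟩ := heven
  obtain ⟨N, E, P, hH, hN, hE⟩ := ha (q / 2) (by omega)
  have h1 := Halving3.h3_ge hH (q / 2) (q - q / 2) (by omega)
  have e : 2 * (q / 2) + 2 * (q - q / 2) = n := by omega
  rw [e] at h1
  have h2 : ((E * (q - q / 2) : ℕ) : ℝ) ≤ Halving3.h3 n := by exact_mod_cast h1
  refine le_trans ?_ h2
  have h3 : ((q / 2 : ℕ) : ℝ) ≤ ((q - q / 2 : ℕ) : ℝ) := by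
    have : q / 2 ≤ q - q / 2 := by omega
    exact_mod_cast this
  have hn8 : (n : ℝ) ≤ 8 * ((q / 2 : ℕ) : ℝ) := by
    have : n ≤ 8 * (q / 2) := by omega
    exact_mod_cast this
  have hn1 : (1 : ℝ) ≤ n := by
    have : 1 ≤ n := by omega
    exact_mod_cast this
  set u : ℝ := ((q / 2 : ℕ) : ℝ) with hu
  have h5 : Real.exp (Real.log n ^ (51 / 100 : ℝ)) ≤
      Real.exp (Real.log (8 * u) ^ (51 / 100 : ℝ)) := by
    apply Real.exp_le_exp.mpr
    apply Real.rpow_le_rpow (Real.log_nonneg hn1) _ (by norm_num)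
    exact Real.log_le_log (by linarith) hn8
  have hu0 : 0 ≤ u := Nat.cast_nonneg _
  have h6 : (n : ℝ) ^ 2 ≤ 64 * u * u := by nlinarith
  push_cast
  calc (n : ℝ) ^ 2 * Real.exp (Real.log n ^ (51 / 100 : ℝ))
      ≤ (64 * u * u) * Real.exp (Real.log (8 * u) ^ (51 / 100 : ℝ)) :=
        mul_le_mul h6 h5 (Real.exp_pos _).le (by positivity)
    _ = (64 * u * Real.exp (Real.log (8 * u) ^ (51 / 100 : ℝ))) * u := by ring
    _ ≤ E * ((q - q / 2 : ℕ) : ℝ) := mul_le_mul hE h3 hu0 (Nat.cast_nonneg _)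

end Pool.Agent.Results.MP_f6af21_co.BeyondSqrt
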