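import Pool.Agent.KLev.Final2
import Pool.Agent.KLev.Halving3

/-!
# Halving partitions in space: more than `n ^ 2 * exp (C * sqrt (log n))` for every `C`

`GeneralPosition`, `IsHalving`, `h` and `h3` are defined in `Pool/Agent/KLev/Halving3.lean`
(namespace `KLev.Halving3`).
-/

namespace Pool.Agent.Results.MP_f6af21_co.EveryConstant

open Filter KLev

/-- For every real `C`, all large even `n` satisfy `h3 n ≥ n ^ 2 * exp (C * sqrt (log n))`. -/
theorem result : ∀ C : ℝ, ∀ᶠ n : ℕ in atTop, Even n →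
    (n : ℝ) ^ 2 * Real.exp (C * Real.sqrt (Real.log n)) ≤ (Halving3.h3 n : ℝ) := by
  intro C
  obtain ⟨a, ha⟩ := (final' (max C 0) 64 (le_max_right _ _)).exists_forall_of_atTop
  filter_upwards [eventually_ge_atTop (4 * a + 10)] with n hn heven
  obtain ⟨q, hq⟩ := heven
  obtain ⟨N, E, P, hH, hN, hE⟩ := ha (q / 2) (by omega)
  have h1 := Halving3.h3_ge hH (q / 2) (q - q / 2) (by omega)
  have e : 2 * (q / 2) + 2 * (q - q / 2) = n := by omega
  rw [e] at h1
  have h2 : ((E * (q - q / 2) : ℕ) : ℝ) ≤ Halving3.h3 n := by exact_mod_cast h1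
  refine le_trans ?_ h2
  have h3 : ((q / 2 : ℕ) : ℝ) ≤ ((q - q / 2 : ℕ) : ℝ) := by
    have : q / 2 ≤ q - q / 2 := by omega
    exact_mod_cast this
  have hn8 : (n : ℝ) ≤ 8 * ((q / 2 : ℕ) : ℝ) := by
    have : n ≤ 8 * (q / 2) := by omega
    exact_mod_cast this
  have hn0 : (0 : ℝ) < n := by
    have : 0 < n := by omega
    exact_mod_cast this
  set u : ℝ := ((q / 2 : ℕ) : ℝ) with hu
  have h4 : C * Real.sqrt (Real.log n) ≤ max C 0 * Real.sqrt (Real.log (8 * u)) := by
    refine (mul_le_mul_of_nonneg_right (le_max_left C 0) (Real.sqrt_nonneg _)).trans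
      (mul_le_mul_of_nonneg_left ?_ (le_max_right _ _))
    exact Real.sqrt_le_sqrt (Real.log_le_log hn0 hn8)
  have h5 := Real.exp_le_exp.mpr h4
  have hu0 : 0 ≤ u := Nat.cast_nonneg _
  have h6 : (n : ℝ) ^ 2 ≤ 64 * u * u := by nlinarith
  push_cast
  calc (n : ℝ) ^ 2 * Real.exp (C * Real.sqrt (Real.log n))
      ≤ (64 * u * u) * Real.exp (max C 0 * Real.sqrt (Real.log (8 * u))) :=
        mul_le_mul h6 h5 (Real.exp_pos _).le (by positivity)
    _ = (64 * u * Real.exp (max C 0 * Real.sqrt (Real.log (8 * u)))) * u := by ring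
    _ ≤ E * ((q - q / 2 : ℕ) : ℝ) := mul_le_mul hE h3 hu0 (Nat.cast_nonneg _)

end Pool.Agent.Results.MP_f6af21_co.EveryConstant
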